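import Pool.Agent.H15AP.Fam

/-!
# Proportional 0-1 sequences of arbitrarily large length

The sequence of length `n = 3200 f ^ 2`, `f ≥ 1`, is made of blocks of length 20,
`P = 11111000000011100101`, `Q = 10100111000000011111`, `C = 10111100000101110001`:
its first half is `P^(20 f ^ 2) C^(10 f) P^(20 f ^ 2 - 10 f) Q^(40 f ^ 2)`, and the second half is
the reversed first half with `0` and `1` exchanged.

The eight counts are equal if and only if seven correlation sums over the progressions vanish. By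
antisymmetry four of them are zero or equal to another one, and the remaining three are expressed
by the prefix sums `S`: the sum of the even prefix sums has to be `0`, the sum of the terms with
even index has to be a square root of `n / 2`, and `∑ s c * S (2 c + 1)`, `c < n / 2`, has to be
`n / 2`. As the blocks have sum zero, these sums split into local terms.
-/

set_option autoImplicit false

namespace Pool.Agent.Results.MP_0132f6_co.ArbitrarilyLong

open Finset

/-- The number of 3-term progressions `(a, a + d, a + 2 d)`, `a, d ≥ 1`, `a + 2 d ≤ n`, whose type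
`x a, x (a + d), x (a + 2 d)` is `u, v, w`. -/
def count (n : ℕ) (x : ℕ → Bool) (u v w : Bool) : ℕ :=
  ((Icc 1 n ×ˢ Icc 1 n).filter fun q =>
    q.1 + 2 * q.2 ≤ n ∧ x q.1 = u ∧ x (q.1 + q.2) = v ∧ x (q.1 + 2 * q.2) = w).card

/-- The number `N(n)` of 3-term progressions in `{1, ..., n}`. -/
def total (n : ℕ) : ℕ := ((Icc 1 n ×ˢ Icc 1 n).filter fun q => q.1 + 2 * q.2 ≤ n).card

/-- The sequence `x 1, ..., x n` is proportional: each of the eight types is the type of exactly
`N(n) / 8` progressions. -/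
def IsProportional (n : ℕ) (x : ℕ → Bool) : Prop :=
  ∀ u v w : Bool, 8 * count n x u v w = total n

open Pool.Agent.H15AP

theorem sum_filter_T (h : ℕ) (F : ℕ → ℕ → ℤ) :
    ∑ q ∈ (Icc 1 (2 * h) ×ˢ Icc 1 (2 * h)).filter (fun q => q.1 + 2 * q.2 ≤ 2 * h),
      F (q.1 - 1) q.2 = T h F := by
  unfold T
  rw [Finset.sum_sigma']
  refine Finset.sum_nbij' (fun q => ⟨q.2, q.1 - 1⟩) (fun p => (p.2 + 1, p.1)) ?_ ?_ ?_ ?_ ?_
  · rintro ⟨a, d⟩ hq
    simp only [Finset.mem_filter, Finset.mem_product, Finset.mem_Icc, Finset.mem_sigma,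
      Finset.mem_Ico, Finset.mem_range] at hq ⊢
    omega
  · rintro ⟨d, a⟩ hq
    simp only [Finset.mem_filter, Finset.mem_product, Finset.mem_Icc, Finset.mem_sigma,
      Finset.mem_Ico, Finset.mem_range] at hq ⊢
    omega
  · rintro ⟨a, d⟩ hq
    simp only [Finset.mem_filter, Finset.mem_product, Finset.mem_Icc] at hq
    simp only [Prod.mk.injEq, and_true]
    omega
  · rintro ⟨d, a⟩ hq
    simp
  · rintro ⟨a, d⟩ hq
    rfl

/-- the sign of a type -/
def sg (u : Bool) : ℤ := if u then 1 else -1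

theorem indicator (a b c : ℤ) (ha : a * a = 1) (hb : b * b = 1) (hc : c * c = 1) (u v w : Bool) :
    (1 + sg u * a) * (1 + sg v * b) * (1 + sg w * c) =
      if decide (a = 1) = u ∧ decide (b = 1) = v ∧ decide (c = 1) = w then 8 else 0 := by
  have e : ∀ t : ℤ, t * t = 1 → t = 1 ∨ t = -1 := fun t ht => mul_self_eq_one_iff.1 ht
  rcases e a ha with rfl | rfl <;> rcases e b hb with rfl | rfl <;>
    rcases e c hc with rfl | rfl <;> cases u <;> cases v <;> cases w <;> decide

theorem prop_of (h : ℕ) (s : ℕ → ℤ) (hs : ∀ i, s i * s i = 1)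
    (hv : ∀ u v w : ℤ, T h (fun a d => (1 + u * s a) * (1 + v * s (a + d)) *
      (1 + w * s (a + 2 * d))) = T h (fun _ _ => 1)) :
    IsProportional (2 * h) fun i => decide (s (i - 1) = 1) := by
  intro u v w
  have h1 := hv (sg u) (sg v) (sg w)
  rw [← sum_filter_T, ← sum_filter_T] at h1
  have h2 : ∑ q ∈ (Icc 1 (2 * h) ×ˢ Icc 1 (2 * h)).filter (fun q => q.1 + 2 * q.2 ≤ 2 * h),
      (1 + sg u * s (q.1 - 1)) * (1 + sg v * s (q.1 - 1 + q.2)) *
        (1 + sg w * s (q.1 - 1 + 2 * q.2)) =
      8 * (count (2 * h) (fun i => decide (s (i - 1) = 1)) u v w : ℤ) := by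
    unfold count
    rw [← Finset.filter_filter, Finset.card_filter, Nat.cast_sum, Finset.mul_sum]
    refine Finset.sum_congr rfl fun q hq => ?_
    simp only [Finset.mem_filter, Finset.mem_product, Finset.mem_Icc] at hq
    beta_reduce
    rw [indicator _ _ _ (hs _) (hs _) (hs _), show q.1 + q.2 - 1 = q.1 - 1 + q.2 by omega,
      show q.1 + 2 * q.2 - 1 = q.1 - 1 + 2 * q.2 by omega]
    split_ifs <;> simp
  rw [h2] at h1
  have h3 : ∑ q ∈ (Icc 1 (2 * h) ×ˢ Icc 1 (2 * h)).filter (fun q => q.1 + 2 * q.2 ≤ 2 * h),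
      (1 : ℤ) = (total (2 * h) : ℤ) := by
    unfold total
    simp
  rw [h3] at h1
  exact_mod_cast h1

theorem exists_prop (f : ℕ) (hf : 1 ≤ f) : ∃ x : ℕ → Bool, IsProportional (3200 * f ^ 2) x := by
  have h1 : 10 * f ≤ 20 * f ^ 2 := by nlinarith
  have h2 := prop_of (1600 * f ^ 2) (sq (f ^ 2) f) (sq_sq _ _) fun u v w =>
    all_vanish (sq_anti _ _) (fun i _ => sq_sq _ _ i) (cond1 _ _ h1) (cond2 _ _ h1 rfl)
      (cond2' _ _ h1 rfl) (cond3 _ _ h1) u v w
  rw [show 3200 * f ^ 2 = 2 * (1600 * f ^ 2) by ring]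
  exact ⟨_, h2⟩

/-- Proportional 0-1 sequences of arbitrarily large length exist. -/
theorem result : {n : ℕ | ∃ x : ℕ → Bool, IsProportional n x}.Infinite := by
  refine Set.infinite_of_forall_exists_gt fun N => ⟨3200 * (N + 1) ^ 2, ?_, ?_⟩
  · exact exists_prop (N + 1) (by omega)
  · nlinarith

end Pool.Agent.Results.MP_0132f6_co.ArbitrarilyLong
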